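import Pool.Agent.W2helper35.CR.Main

set_option autoImplicit false

/-!
# The Bass trace conjecture for groups of birational transformations

Let `R` be a commutative domain, `K` a field and `Cremona K n` the Cremona group, that is, the group
of the `K`-automorphisms of the field `K(x_1, …, x_n)`.

1. Let `Γ` be a subgroup of `Cremona K n` and `c ∈ Γ` an element of infinite order. The value
`τ_A(c)` vanishes for all idempotent matrices `A` over `R[Γ]` in the following cases (`Tame`).
(a) `K` and `R` have characteristic zero, or `K` has characteristic `p > 0` and `p` is not a unit in
`R`; moreover for some `m ≤ n` the degrees of the functions `c ^ k (x_j)`, `k ≥ 0`, `j ≤ m`, are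
bounded, and the elements `h ∈ Γ` for which `h c h⁻¹` or `h⁻¹ c h` is a power `c ^ k`, `k ≥ 1`, map
the fields `K(x_1, …, x_i)`, `m ≤ i < n`, to themselves. For `m = n` this means that `c` has bounded
degree, and nothing is assumed about `Γ`; for `m = 0` nothing is assumed about the degrees, and the
condition holds for instance if `Γ` preserves the flag of the coordinates (groups of de Jonquières
type).
(b) The degrees of the powers of `c` grow exponentially (the first dynamical degree of `c` is not
one).
(c) `c` is not conjugate in `Γ` to any power `c ^ m`, `m ≥ 2`.

2. The Bass trace conjecture holds for `R` and every group `Γ` in which all elements of infinite order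
are detected by such actions: if `H` is a finitely generated subgroup and `h ∈ H` has infinite order
then there is a homomorphism from `H` to some group `Cremona K n` which maps `h` to an element of
infinite order that is tame in the image of `H`.

Idea of the proof of (a). A finitely generated group `H` of birational transformations is defined over
a finitely generated ring; for infinitely many primes `p` there is a valuation ring `O` of `K` with
`p` in its maximal ideal such that all generators have good reduction, which is defined over a finite
field. Hence `H` acts on the local ring `B` of the generic point of the special fibre of the affine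
space over `O`, and on its residue field. The reduction of `c` has finite order: on the first `m`
coordinates, since there are only finitely many rational functions of bounded degree over a finite
field; on the others, since an infinitely `p`-divisible element of `PGL_2` of a rational function field
over a finite field has finite order (the invariant `tr ^ 2 / det` is infinitely `p`-divisible). Finally,
an element which is trivial modulo the maximal ideal of `B` and conjugate to its `p ^ J`-th power is
trivial: the ideal generated by all `c f - f` is generated by constants, therefore invariant under
`H`, and it is strictly smaller for `c ^ p`.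
-/

namespace Pool.Agent.Results.MP_7903c7_al.CremonaGroups

open Pool.Agent.W2helper35.CR (Tame Detected)

universe u v w

/-- The function `τ_A` vanishes at `g` for all idempotent matrices `A` over `R[Γ]`. -/
def VanishesAt (R : Type v) [CommRing R] (Γ : Type w) [Group Γ] (g : Γ) : Prop :=
  ∀ (k : ℕ) (A : Matrix (Fin k) (Fin k) (MonoidAlgebra R Γ)), A * A = A →
    ∑ i : Fin k, ∑ᶠ (h : Γ) (_ : IsConj h g), (A i i).coeff h = 0

/-- The Bass trace conjecture for the ring `R` and the group `Γ`. -/
def BassFor (R : Type v) [CommRing R] (Γ : Type w) [Group Γ] : Prop :=
  ∀ g : Γ, ¬ IsUnit ((orderOf g : ℕ) : R) → VanishesAt R Γ g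

/-- Here `L` is the field of rational functions in `n` variables over `K`, so that `L ≃ₐ[K] L` is the
Cremona group. -/
theorem result (R : Type v) [CommRing R] [IsDomain R] :
    (∀ (K : Type u) [Field K] (n : ℕ) (L : Type u) [Field L] [Algebra (MvPolynomial (Fin n) K) L]
      [IsFractionRing (MvPolynomial (Fin n) K) L] [Algebra K L]
      [IsScalarTower K (MvPolynomial (Fin n) K) L] (Γ : Subgroup (L ≃ₐ[K] L)) (c : Γ),
      ¬ IsOfFinOrder c → Tame n R Γ (c : L ≃ₐ[K] L) → VanishesAt R Γ c) ∧
    (∀ (Γ : Type w) [Group Γ],
      (∀ H : Subgroup Γ, H.FG → ∀ h : H, ¬ IsOfFinOrder h → Detected.{u} R H h) →
        BassFor R Γ) := by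
  constructor
  · intro K _ n L _ _ _ _ _ Γ c hc ht k A hA
    exact Pool.Agent.W2helper35.CR.bass_cremona (n := n) Γ c hc ht A hA
  · intro Γ _ hΓ g hg k A hA
    exact Pool.Agent.W2helper35.CR.bass_detected hΓ A hA g hg

end Pool.Agent.Results.MP_7903c7_al.CremonaGroups
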