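import Pool.Agent.W2helper25.PA.Main

set_option autoImplicit false

/-!
# The Bass trace conjecture for groups of local similarities and of locally analytic homeomorphisms

Let `R` be any commutative domain.

1. (General form.) The Bass trace conjecture holds for `R` and the group `Γ`, if all elements `c` of
infinite order of all finitely generated subgroups `H` of `Γ` are detected: a subgroup `N` of finite
index of `H` acts on a compact ultrametric space `X`, and either `N` acts by local similarities, `X`
has no isolated points and a power of `c` in `N` has unbounded local factors; or `R` has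
characteristic zero, `X` is an open subset of `ℚ_p` for some prime `p`, on which `N` acts by locally
analytic homeomorphisms, and no positive power of `c` in `N` acts trivially.
2. It holds for `R` and each group `Γ` which acts faithfully by local similarities on a compact
ultrametric space without isolated points, such that the germs of the elements which preserve a ball
isometrically have finite order.
3. It holds for `R` and each group of homeomorphisms of the space of infinite words in a finite
alphabet which are locally of the form `l w ↦ l' g(w)`, where `l`, `l'` are finite words and `g`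
belongs to a self-similar torsion group `G`: for the subgroups of the Röver–Nekrashevych groups
`V(G)`, for instance for Röver's simple group (`G` is the first Grigorchuk group) and for the
Higman–Thompson groups (`G` is trivial). Nothing else is assumed about `G`.
4. If `R` has characteristic zero, it holds for `R` and each group `Γ` which acts faithfully by
homeomorphisms which are locally given by convergent power series on a compact open subset of `ℚ_p`.
(Each compact one-dimensional analytic manifold over `ℚ_p`, for instance the projective line, is
isomorphic to such a set.) Nothing is assumed about the germs.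

Idea of the proof. Locally analytic homeomorphisms of open subsets of `ℚ_p` are local similarities.
Let `c` be an element with unbounded factors. If the factors of the powers of `c` are not bounded away
from zero, there are (last times of passage through the levels and the pigeonhole principle for the
balls of a uniform radius) a ball `B` and a power of `c` which contracts `B` into itself; so there is
an attracting periodic point. Starting at a point of its orbit where the factors of all powers are at
most one, we see that there are only finitely many such points. The sum `A(c)` of the logarithms of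
the factors of `c` at its attracting periodic points is negative, it is invariant under conjugation,
and `A(c ^ e) = e A(c)`. So `c` is not conjugate to a proper power. If the factors are bounded, then a
power of `c` preserves all balls of some radius isometrically.

In the analytic case a power `d` of such an element satisfies
`‖(d y - d x) - (y - x)‖ ≤ p⁻² ‖y - x‖` at small distances, and so `‖d ^ n x - x‖ = ‖n‖ ‖d x - x‖`. We
show that there is a homomorphism from the centralizer `C` of `c` to the real numbers which does not
vanish at `c`. There are only finitely many fixed points of `d` near which `d` is not the identity; if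
`z` is one of them, a subgroup of finite index of `C` fixes `z`, and if `d'(z) ≠ 1` the derivative at
`z` has values in the multiplicative group of `ℚ_p`; if `d'(z) = 1`, then the derivative at `z` has
finite image on this subgroup, and the limit of `(h y - y) / (d y - y)` for `y → z` exists and is
additive on its kernel. If there are no such points, then the closures of the orbits of `d` outside
the fixed points are balls of radius `‖d x - x‖`, which is bounded from below. So there are finitely
many of them, and they are torsors for the group of `p`-adic integers; the stabilizer of one of them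
in `C` acts by translations.
-/

namespace Pool.Agent.Results.MP_7903c7_al.LocalSimilarities

open Topology
open Pool.Agent.W2helper25.LS (LocSim TorsionGerms Unbounded Seq cons app SelfSim LocForm)
open Pool.Agent.W2helper25.PA (LocAn)

universe u v w

/-- The Bass trace conjecture for the ring `R` and the group `Γ`. -/
def BassFor (R : Type v) [CommRing R] (Γ : Type u) [Group Γ] : Prop :=
  ∀ (n : ℕ) (A : Matrix (Fin n) (Fin n) (MonoidAlgebra R Γ)), A * A = A →
    ∀ g : Γ, ¬ IsUnit ((orderOf g : ℕ) : R) →
      ∑ i : Fin n, ∑ᶠ (h : Γ) (_ : IsConj h g), (A i i).coeff h = 0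

/-- A subgroup of finite index of `H` acts by local similarities on a compact ultrametric space
without isolated points such that a power of `c` in this subgroup has unbounded factors. -/
def Stretched (H : Type u) [Group H] (c : H) : Prop :=
  ∃ (N : Subgroup H) (_ : N.FiniteIndex) (X : Type w) (_ : MetricSpace X) (_ : IsUltrametricDist X)
    (_ : CompactSpace X) (_ : MulAction N X), LocSim N X ∧ (∀ x : X, (𝓝[≠] x).NeBot) ∧
      ∃ (m : ℕ) (hm : c ^ m ∈ N), Unbounded X (⟨c ^ m, hm⟩ : N)

/-- For some prime `p` a subgroup `N` of finite index of `H` acts on a compact open set of `p`-adic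
numbers by locally analytic homeomorphisms such that no positive power of `c` in `N` acts trivially. -/
def AnalyticallyDetected (H : Type u) [Group H] (c : H) : Prop :=
  ∃ (N : Subgroup H) (_ : N.FiniteIndex) (p : ℕ) (_ : Fact p.Prime) (X : Set ℚ_[p])
    (_ : MulAction N X), IsOpen X ∧ IsCompact X ∧ LocAn N X ∧
      ∀ (m : ℕ) (hm : c ^ m ∈ N), 0 < m → ∃ x : X, (⟨c ^ m, hm⟩ : N) • x ≠ x

theorem result (R : Type v) [CommRing R] [IsDomain R] :
    (∀ (Γ : Type u) [Group Γ], (∀ H : Subgroup Γ, H.FG → ∀ h : H, ¬ IsOfFinOrder h →
      Stretched.{u, w} H h ∨ (CharZero R ∧ AnalyticallyDetected H h)) → BassFor R Γ) ∧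
    (∀ (Γ : Type u) [Group Γ] (X : Type w) [MetricSpace X] [IsUltrametricDist X] [CompactSpace X]
      [MulAction Γ X], LocSim Γ X → (∀ x : X, (𝓝[≠] x).NeBot) →
      (∀ g : Γ, (∀ x : X, g • x = x) → g = 1) → TorsionGerms Γ X → BassFor R Γ) ∧
    (∀ (A : Type w) [Finite A] [Nontrivial A] (G : Subgroup (Equiv.Perm (Seq A))), SelfSim G →
      (∀ g ∈ G, IsOfFinOrder g) → ∀ (Γ : Type u) [Group Γ] (ρ : Γ →* Equiv.Perm (Seq A)),
      Function.Injective ρ → (∀ γ, LocForm G (ρ γ)) → BassFor R Γ) ∧
    (CharZero R → ∀ (p : ℕ) [Fact p.Prime] (X : Set ℚ_[p]) (Γ : Type u) [Group Γ] [MulAction Γ X],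
      IsOpen X → IsCompact X → LocAn Γ X → (∀ g : Γ, (∀ x : X, g • x = x) → g = 1) →
      BassFor R Γ) := by
  have gen : (∀ (Γ : Type u) [Group Γ], (∀ H : Subgroup Γ, H.FG → ∀ h : H, ¬ IsOfFinOrder h →
      Stretched.{u, w} H h ∨ (CharZero R ∧ AnalyticallyDetected H h)) → BassFor R Γ) := by
    intro Γ _ hΓ n A hA g hg
    refine Pool.Agent.H26R2.Bass.bass_of_local ?_ A hA g hg
    intro H hH c hc
    rcases hΓ H hH c (by rwa [isOfFinOrder_iff_pow_eq_one]) with h1 | ⟨h0, h1⟩
    · obtain ⟨N, hN, X, i1, i2, i3, i4, h, hp, m, hm, hu⟩ := h1
      have hs : Pool.Agent.W2helper25.LS.Stretched.{u, w} H c :=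
        ⟨N, hN, X, i1, i2, i3, i4, h, hp, m, hm, hu.not_bdd h hp⟩
      exact Pool.Agent.W2helper25.LS.good_of_not_conj R (fun e he => hs.not_conj he)
    · obtain ⟨φ, hφ⟩ := Pool.Agent.W2helper25.PA.Detected.hom h1
      exact Pool.Agent.W2helper35.TM.good_of_real R c φ hφ
  have key : ∀ (Γ : Type u) [Group Γ] (X : Type w) [MetricSpace X] [IsUltrametricDist X]
      [CompactSpace X] [MulAction Γ X], LocSim Γ X → (∀ x : X, (𝓝[≠] x).NeBot) →
      (∀ g : Γ, (∀ x : X, g • x = x) → g = 1) → TorsionGerms Γ X → BassFor R Γ := by
    intro Γ _ X _ _ _ _ h hp hf ht n A hA g hg
    refine Pool.Agent.H26R2.Bass.bass_of_local ?_ A hA g hg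
    intro H _ c hc
    obtain ⟨h', hb⟩ := Pool.Agent.W2helper25.LS.not_bdd_sub h hp ht hf H (c := c)
      (by rwa [isOfFinOrder_iff_pow_eq_one])
    exact Pool.Agent.W2helper25.LS.good_of_not_conj R
      (fun e he => Pool.Agent.W2helper25.LS.not_conj h' hp hb he)
  refine ⟨gen, key, ?_, ?_⟩
  · intro A _ _ G hG hT Γ _ ρ hρ hf
    letI : MulAction Γ (Seq A) := MulAction.compHom (Seq A) ρ
    have hf' : ∀ γ : Γ, LocForm G (fun x => γ • x) := hf
    apply key Γ (Seq A) (Pool.Agent.W2helper25.LS.locSim_of_form hG hf')
      Pool.Agent.W2helper25.LS.seq_perfect
    · intro g hg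
      apply hρ
      rw [map_one]
      exact Equiv.ext hg
    · exact Pool.Agent.W2helper25.LS.torsionGerms_of_form hG hT hf'
  · intro h0 p _ X Γ _ _ hX hK h hf
    apply gen
    intro H _ c hc
    exact Or.inr ⟨h0, Pool.Agent.W2helper25.PA.detected_of_faithful hX hK h hf H hc⟩

end Pool.Agent.Results.MP_7903c7_al.LocalSimilarities
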