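import Pool.Agent.W2helper35.LC.Main

set_option autoImplicit false

/-!
# The Bass trace conjecture for groups with slow actions

Let `R` be a commutative domain.

1. Let `Γ` be a group and `c ∈ Γ`. Then `τ_A(c) = 0` for all idempotent matrices over `R[Γ]` if `Γ` acts
by automorphisms on a group `V` with a family of elements `x_i` such that no power of `c` fixes all of
them and such that the subgroups generated by the points `g x_i`, `g` in the ball of radius `n` of `Γ`
(for some finite subset of `Γ`), are finite and `log log` of their orders is `o(n)` along a sequence,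
uniformly in `i` (`Slow`).

2. The Bass trace conjecture holds for `R` and `Γ` if all elements of infinite order of finitely generated
subgroups of `Γ` are slow. This is the case if `Γ` acts with a torsion kernel, for instance faithfully,
* by permutations `t` of a set `X` with an action of a group `Λ` of locally subexponential growth, such
  that `t x ∈ F x` for all `x` and a finite subset `F` of `Λ` which depends on `t` (topological full
  groups of such actions);
* by permutations `t` of an abelian group with finitely many displacements `t x - x` (for `ℝ/ℤ`: groups of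
  interval exchange transformations);
* by permutations at bounded distance from the identity of a metric space in which balls are finite and
  grow subexponentially, uniformly in the centre (wobbling groups);
* by band operators on `X →₀ F`, `F` a finite abelian group, `X` and `Λ` as above (for instance groups of
  invertible matrices over group rings `F[Λ]`, that is, of linear cellular automata);
* by quasi-local permutations of a system `(X, Λ, f)` of subexponential complexity (automorphism groups of
  subshifts of entropy zero, and the groups generated by them and by the topological full groups);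
* on a space of sequences such that the action is contracting (contracting self-similar groups).

Idea of the proof. If `g c g⁻¹ = c ^ m`, `m ≥ 2`, then all powers `c ^ k`, `k < N`, are words of length
`O(log N)` (Horner's scheme). So the subgroups generated by the first `N` points of the orbit of `x_i`
under `c` have order less than `2 ^ N` for some `N`, and the chain of the subgroups generated by the first
`n` points, `n ≤ N`, is not strictly increasing. Hence `x_i` belongs to a finite subgroup of order less than
`2 ^ N` which is invariant under `c`, and a power of `c`, independent of `i`, fixes `x_i`.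
-/

namespace Pool.Agent.Results.MP_7903c7_al.SlowActions

open Pool.Agent.W2helper35.LC (Slow SubexpGroup Bounded Band SubexpSpace LowSystem QuasiLocal
  Contracting TorsionKernel)

universe u v w z

/-- The function `τ_A` vanishes at `g` for all idempotent matrices `A` over `R[Γ]`. -/
def VanishesAt (R : Type v) [CommRing R] (Γ : Type w) [Group Γ] (g : Γ) : Prop :=
  ∀ (k : ℕ) (A : Matrix (Fin k) (Fin k) (MonoidAlgebra R Γ)), A * A = A →
    ∑ i : Fin k, ∑ᶠ (h : Γ) (_ : IsConj h g), (A i i).coeff h = 0

/-- The Bass trace conjecture for the ring `R` and the group `Γ`. -/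
def BassFor (R : Type v) [CommRing R] (Γ : Type w) [Group Γ] : Prop :=
  ∀ g : Γ, ¬ IsUnit ((orderOf g : ℕ) : R) → VanishesAt R Γ g

theorem result (R : Type z) [CommRing R] [IsDomain R] :
    (∀ (Γ : Type u) [Group Γ] (c : Γ), Slow.{u, v} Γ c → VanishesAt R Γ c) ∧
    (∀ (Γ : Type u) [Group Γ],
      (∀ H : Subgroup Γ, H.FG → ∀ h : H, ¬ IsOfFinOrder h → Slow.{u, v} H h) → BassFor R Γ) ∧
    (∀ (Λ : Type w) [Group Λ], SubexpGroup Λ → ∀ (X : Type v) [MulAction Λ X] (Γ : Type u) [Group Γ],
      (∀ [MulAction Γ X], TorsionKernel Γ X → (∀ g : Γ, Bounded Λ (fun x : X => g • x)) →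
        BassFor R Γ) ∧
      (∀ (F : Type v) [AddCommGroup F] [Finite F] (φ : Γ →* AddMonoid.End (X →₀ F)),
        (∀ g, φ g = 1 → IsOfFinOrder g) → (∀ g, Band Λ (φ g)) → BassFor R Γ)) ∧
    (∀ (B : Type v) [AddCommGroup B] (Γ : Type u) [Group Γ] [MulAction Γ B], TorsionKernel Γ B →
      (∀ g : Γ, (Set.range fun x : B => g • x - x).Finite) → BassFor R Γ) ∧
    (∀ (X : Type v) [PseudoMetricSpace X], SubexpSpace X → ∀ (Γ : Type u) [Group Γ] [MulAction Γ X],
      TorsionKernel Γ X → (∀ g : Γ, ∃ D : ℝ, ∀ x : X, dist (g • x) x ≤ D) → BassFor R Γ) ∧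
    (∀ (Λ X A : Type v) [Group Λ] [MulAction Λ X] (f : X → A), LowSystem Λ f →
      ∀ (Γ : Type u) [Group Γ] [MulAction Γ X], TorsionKernel Γ X →
        (∀ g : Γ, QuasiLocal Λ f (fun x : X => g • x)) → BassFor R Γ) ∧
    (∀ (A : Type v) [Finite A] (Γ : Type u) [Group Γ] [MulAction Γ (ℕ → A)],
      TorsionKernel Γ (ℕ → A) → Contracting A Γ → BassFor R Γ) := by
  refine ⟨?_, ?_, ?_, ?_, ?_, ?_, ?_⟩
  · intro Γ _ c hc k A hA
    exact Pool.Agent.W2helper35.LC.bass_slow_at c hc A hA
  · intro Γ _ hΓ g hg k A hA
    exact Pool.Agent.W2helper35.LC.bass_slow hΓ A hA g hg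
  · intro Λ _ hΛ X _ Γ _
    constructor
    · intro _ hker hb g hg k A hA
      exact Pool.Agent.W2helper35.LC.bass_slow' (fun h hh =>
        (Pool.Agent.W2helper35.LC.slow_of_bounded hΛ hb h fun q hq => hker.pow hh q hq).slow) A hA g hg
    · intro F _ _ φ hker hb g hg k A hA
      refine Pool.Agent.W2helper35.LC.bass_slow' (fun h hh =>
        Pool.Agent.W2helper35.LC.slow_of_band hΛ φ hb h fun q hq h1 => ?_) A hA g hg
      exact hh ((hker _ h1).of_pow (by omega))
  · intro B _ Γ _ _ hker hb g hg k A hA
    refine Pool.Agent.W2helper35.LC.bass_slow' (fun h hh =>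
      (Pool.Agent.W2helper35.LC.slow_of_bounded (Λ := Multiplicative B)
        (Pool.Agent.W2helper35.LC.subexp_comm _) (X := B) ?_ h fun q hq => hker.pow hh q hq).slow)
      A hA g hg
    intro t
    refine ⟨(fun b : B => Multiplicative.ofAdd b) '' Set.range fun x : B => t • x - x,
      (hb t).image _, fun x => ⟨Multiplicative.ofAdd (t • x - x), ⟨_, ⟨x, rfl⟩, rfl⟩, ?_⟩⟩
    show t • x = (t • x - x) + x
    rw [sub_add_cancel]
  · intro X _ hX Γ _ _ hker hb g hg k A hA
    exact Pool.Agent.W2helper35.LC.bass_slow' (fun h hh =>
      (Pool.Agent.W2helper35.LC.slow_of_metric hX hb h fun q hq => hker.pow hh q hq).slow) A hA g hg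
  · intro Λ X A' _ _ f hf Γ _ _ hker hb g hg k A hA
    exact Pool.Agent.W2helper35.LC.bass_slow' (fun h hh =>
      (Pool.Agent.W2helper35.LC.slow_of_quasiLocal hf hb h fun q hq => hker.pow hh q hq).slow)
      A hA g hg
  · intro A' _ Γ _ _ hker hcon g hg k A hA
    exact Pool.Agent.W2helper35.LC.bass_slow' (fun h hh =>
      (Pool.Agent.W2helper35.LC.slow_of_contracting hcon h fun q hq => hker.pow hh q hq).slow)
      A hA g hg

end Pool.Agent.Results.MP_7903c7_al.SlowActions
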