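import Pool.Agent.W2helper35.UA.Main

set_option autoImplicit false

/-!
# The Bass trace conjecture for groups of units of algebras of subexponential growth

Let `R` be a commutative domain.

1. Let `c` be an element of a group `Γ`. Then `τ_A(c) = 0` for all idempotent matrices over `R[Γ]` if
(a) `Γ` acts linearly on a vector space over a field, and there is a vector `x` of subexponential growth
(the dimension of the space spanned by `S ^ n x` is `exp(o(n))` along a sequence, for all finite subsets
`S` of `Γ`), such that the vectors `c ^ n x`, `n ≥ 0`, are linearly independent (`FreeVector`), or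
(b) `Γ` is mapped to the group of units of an algebra over a field, such that the image of `c` has infinite
order and is algebraic; and the characteristic of the field is positive, or nonzero nilpotent elements of
finitely generated subrings `B` of the algebra are not infinitely divisible in `B` by suitable primes, which
is a condition on `R` and the algebra (`Sep`; it holds for example for reduced algebras and all `R`)
(`AlgebraicUnit`). No growth condition is needed in this case.

2. The Bass trace conjecture holds for `R` and `Γ` if all elements of infinite order of finitely generated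
subgroups of `Γ` are of this kind.

3. It holds for `R` and all groups `Γ` with a homomorphism to `GL_n(A)` whose kernel is a torsion group,
where `A` is an algebra of locally subexponential growth over a field `k` of positive characteristic, or
over a field of characteristic zero if `R` has characteristic zero and `A` satisfies a condition on the
coordinates of its elements (`Coordinates`).

4. For instance `A = k[Λ]`, where `Λ` is a group of locally subexponential growth, for all fields `k` of
positive characteristic, and for all fields if the characteristic of `R` is zero.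

5. The same holds for the group of units of a reduced algebra of locally subexponential growth, without
conditions on the characteristics.

Idea of the proof. Let `g c g⁻¹ = c ^ m`, `m ≥ 2`. Then the elements `c ^ k`, `k < N`, are words of length
`O(log N)` in `c` and `g`, and this contradicts (a). In case (b) the set of the roots of the minimal polynomial
of `c` is mapped to itself by `λ ↦ λ ^ m`, and it is finite and does not contain zero, so the roots are roots
of unity and `u = c ^ q` is unipotent for some `q ≥ 1`. In positive characteristic `c` has finite order, a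
contradiction. In general let `z = (u - 1) ^ (d - 1) ≠ 0`, `(u - 1) ^ d = 0`. Then
`g z g⁻¹ = m ^ (d - 1) z`, hence `z` is infinitely divisible by `m` in the subring generated by the group.
-/

namespace Pool.Agent.Results.MP_7903c7_al.UnitGroups

open Pool.Agent.W2helper35.LC (SubexpGroup)
open Pool.Agent.W2helper35.UA (SubexpAlg Coordinates FreeVector AlgebraicUnit)

universe u v w z

/-- The function `τ_A` vanishes at `g` for all idempotent matrices `A` over `R[Γ]`. -/
def VanishesAt (R : Type v) [CommRing R] (Γ : Type w) [Group Γ] (g : Γ) : Prop :=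
  ∀ (k : ℕ) (A : Matrix (Fin k) (Fin k) (MonoidAlgebra R Γ)), A * A = A →
    ∑ i : Fin k, ∑ᶠ (h : Γ) (_ : IsConj h g), (A i i).coeff h = 0

/-- The Bass trace conjecture for the ring `R` and the group `Γ`. -/
def BassFor (R : Type v) [CommRing R] (Γ : Type w) [Group Γ] : Prop :=
  ∀ g : Γ, ¬ IsUnit ((orderOf g : ℕ) : R) → VanishesAt R Γ g

theorem result (R : Type z) [CommRing R] [IsDomain R] :
    (∀ (Γ : Type w) [Group Γ] (c : Γ), FreeVector.{u, v} Γ c ∨ AlgebraicUnit.{u, v} R Γ c →
      VanishesAt R Γ c) ∧
    (∀ (Γ : Type w) [Group Γ],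
      (∀ H : Subgroup Γ, H.FG → ∀ h : H, ¬ IsOfFinOrder h →
        FreeVector.{u, v} H h ∨ AlgebraicUnit.{u, v} R H h) → BassFor R Γ) ∧
    (∀ (k : Type u) [Field k] (A : Type v) [Ring A] [Algebra k A], SubexpAlg k A →
      ((∃ p : ℕ, p.Prime ∧ CharP k p) ∨ (CharZero k ∧ CharZero R ∧ Coordinates k A)) →
      ∀ (n : ℕ) (Γ : Type w) [Group Γ] (ρ : Γ →* (Matrix (Fin n) (Fin n) A)ˣ),
        (∀ g, ρ g = 1 → IsOfFinOrder g) → BassFor R Γ) ∧
    (∀ (k : Type u) [Field k] (Λ : Type u) [Group Λ], SubexpGroup Λ →
      ((∃ p : ℕ, p.Prime ∧ CharP k p) ∨ CharZero R) →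
      ∀ (n : ℕ) (Γ : Type w) [Group Γ] (ρ : Γ →* (Matrix (Fin n) (Fin n) (MonoidAlgebra k Λ))ˣ),
        (∀ g, ρ g = 1 → IsOfFinOrder g) → BassFor R Γ) ∧
    (∀ (k : Type u) [Field k] (A : Type v) [Ring A] [Algebra k A], SubexpAlg k A → IsReduced A →
      ∀ (Γ : Type w) [Group Γ] (ρ : Γ →* Aˣ), (∀ g, ρ g = 1 → IsOfFinOrder g) → BassFor R Γ) := by
  have h3 : ∀ (k : Type u) [Field k] (A : Type v) [Ring A] [Algebra k A], SubexpAlg k A →
      ((∃ p : ℕ, p.Prime ∧ CharP k p) ∨ (CharZero k ∧ CharZero R ∧ Coordinates k A)) →
      ∀ (n : ℕ) (Γ : Type w) [Group Γ] (ρ : Γ →* (Matrix (Fin n) (Fin n) A)ˣ),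
        (∀ g, ρ g = 1 → IsOfFinOrder g) → BassFor R Γ := by
    intro k _ A _ _ hA hk n Γ _ ρ hρ g hg l M hM
    refine Pool.Agent.W2helper35.UA.bass_unit'.{u, v} (fun h hh => ?_) M hM g hg
    refine Pool.Agent.W2helper35.UA.unit_cases (hA.matrix n) ?_ ρ h ?_
    · rcases hk with hk | ⟨_, _, hk⟩
      · exact Or.inl hk
      · exact Or.inr (Pool.Agent.W2helper35.UA.sep_of_coordinates (hk.matrix n) R)
    · intro hf
      obtain ⟨q, hq, hq1⟩ := isOfFinOrder_iff_pow_eq_one.1 hf
      rw [← map_pow] at hq1
      exact hh ((hρ _ hq1).of_pow (by omega))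
  refine ⟨?_, ?_, h3, ?_, ?_⟩
  · intro Γ _ c hc k A hA
    exact Pool.Agent.W2helper35.UA.bass_unit_at c hc A hA
  · intro Γ _ hΓ g hg k A hA
    exact Pool.Agent.W2helper35.UA.bass_unit hΓ A hA g hg
  · intro k _ Λ _ hΛ hk n Γ _ ρ hρ g hg l M hM
    refine Pool.Agent.W2helper35.UA.bass_unit'.{u, u} (fun h hh => ?_) M hM g hg
    refine Pool.Agent.W2helper35.UA.unit_cases
      ((Pool.Agent.W2helper35.UA.subexp_groupAlgebra (k := k) hΛ).matrix n) ?_ ρ h ?_
    · obtain ⟨q, hq⟩ := CharP.exists k
      by_cases h0 : q = 0
      · subst h0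
        haveI := CharP.charP_to_charZero k
        rcases hk with ⟨p, hp, hkp⟩ | hk
        · exact Or.inl ⟨p, hp, hkp⟩
        · exact Or.inr (Pool.Agent.W2helper35.UA.sep_of_coordinates
            ((Pool.Agent.W2helper35.UA.coordinates_groupAlgebra (k := k) Λ).matrix n) R)
      · exact Or.inl ⟨q, (CharP.char_is_prime_or_zero k q).resolve_right h0, hq⟩
    · intro hf
      obtain ⟨q, hq, hq1⟩ := isOfFinOrder_iff_pow_eq_one.1 hf
      rw [← map_pow] at hq1
      exact hh ((hρ _ hq1).of_pow (by omega))
  · intro k _ A _ _ hA hred Γ _ ρ hρ g hg l M hM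
    refine Pool.Agent.W2helper35.UA.bass_unit'.{u, v} (fun h hh => ?_) M hM g hg
    refine Pool.Agent.W2helper35.UA.unit_cases hA
      (Or.inr (Pool.Agent.W2helper35.UA.sep_of_reduced R A)) ρ h ?_
    intro hf
    obtain ⟨q, hq, hq1⟩ := isOfFinOrder_iff_pow_eq_one.1 hf
    rw [← map_pow] at hq1
    exact hh ((hρ _ hq1).of_pow (by omega))

end Pool.Agent.Results.MP_7903c7_al.UnitGroups
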